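import Pool.Agent.Helper89.FA.Main
import Pool.Agent.Helper37.SP.Bridge
import Pool.Agent.Helper68.SP.Node104

/-!
Project SP, module SP-13b: small coordinates, `t ≤ 1.04`.
-/

set_option autoImplicit false

open MeasureTheory Set Real Slab
open Pool.Agent.Helper88.Slab (prob)

namespace Pool.Agent.Helper89.SP

theorem chord104 {t l : ℝ} (hl0 : 0 ≤ l) (hl1 : l ≤ 1) (ht : t = (1 - l) * 1.02 + l * 1.04) :
    (1 - l) * ((3 - √3 * 1.02) ^ 3 / 24 - 0.00004) + l * ((3 - √3 * 1.04) ^ 3 / 24 - 0.00006) ≤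
      (3 - √3 * t) ^ 3 / 24 := by
  obtain ⟨h3a, h3b⟩ := FA.sqrt3_b
  have h33 : √3 ^ 2 = 3 := Real.sq_sqrt (by norm_num)
  obtain ⟨y0, hy0⟩ : ∃ y, y = 3 - √3 * 1.02 := ⟨_, rfl⟩
  obtain ⟨y1, hy1⟩ : ∃ y, y = 3 - √3 * 1.04 := ⟨_, rfl⟩
  have hy : 3 - √3 * t = (1 - l) * y0 + l * y1 := by rw [ht, hy0, hy1]; ring
  rw [hy, ← hy0, ← hy1]
  have key : (1 - l) * y0 ^ 3 + l * y1 ^ 3 - ((1 - l) * y0 + l * y1) ^ 3 =
      l * (1 - l) * ((y0 - y1) ^ 2 * ((2 - l) * y0 + (1 + l) * y1)) := by ring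
  have d1 : y0 - y1 = √3 * 0.02 := by rw [hy0, hy1]; ring
  have d2 : (y0 - y1) ^ 2 = 0.0012 := by
    rw [d1, mul_pow, h33]; norm_num
  have b0 : y0 ≤ 1.2334 := by rw [hy0]; linarith
  have b1 : y1 ≤ 1.2 := by rw [hy1]; linarith
  have h4 : (2 - l) * y0 + (1 + l) * y1 ≤ 3.7002 := by nlinarith
  rw [d2] at key
  have hll : 0 ≤ l * (1 - l) := mul_nonneg hl0 (by linarith)
  have h6 : l * (1 - l) * (0.0012 * ((2 - l) * y0 + (1 + l) * y1)) ≤
      l * (1 - l) * (0.0012 * 3.7002) :=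
    mul_le_mul_of_nonneg_left (by linarith) hll
  have h7 : l * (1 - l) * (0.0012 * 3.7002) ≤ 24 * ((1 - l) * 0.00004 + l * 0.00006) := by
    nlinarith [sq_nonneg (l - 0.446)]
  linarith

theorem small_coords {L : List ℝ} (hL : ∀ x ∈ L, 0 ≤ x) (h1 : sq L = 1) (h41 : ∀ x ∈ L, x ≤ 0.41)
    {t : ℝ} (ht : 1.02 ≤ t) (ht2 : t ≤ 1.04) : T L t ≤ Mf t := by
  obtain ⟨a, ha, hs⟩ := exists_vec L
  rw [h1] at hs
  have hmem : ∀ j, a j ∈ L := by
    intro j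
    have : a j ∈ List.ofFn a := List.mem_ofFn.2 ⟨j, rfl⟩
    rwa [ha] at this
  have habs : ∀ j, |a j| ≤ 0.41 := by
    intro j
    rw [abs_of_nonneg (hL _ (hmem j))]
    exact h41 _ (hmem j)
  rw [← ha, T_ofFn a (by linarith)]
  have k3 := FA.node2 a hs (fun j => lt_of_le_of_lt (habs j) (by norm_num))
    (fun j k _ => by have := habs j; have := habs k; norm_num at *; linarith)
  have k2 := node104 a hs habs
  obtain ⟨i, hi, -⟩ := FA.max_coord a hs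
  obtain ⟨l, hl⟩ : ∃ l, l = (t - 1.02) / 0.02 := ⟨_, rfl⟩
  have hl0 : 0 ≤ l := by rw [hl]; apply div_nonneg <;> linarith
  have hl1 : l ≤ 1 := by rw [hl, div_le_one (by norm_num)]; linarith
  have htl : t = (1 - l) * 1.02 + l * 1.04 := by rw [hl]; ring
  have k1 := FA.prob_concave a i hi (t := 1.02) (t' := 1.04) (by norm_num) (by norm_num) hl0 hl1
  rw [← htl] at k1
  have k4 := chord104 hl0 hl1 htl
  have k5 : (1 - l) * (1 - (3 - √3 * 1.02) ^ 3 / 24 + 0.00004) ≤ (1 - l) * prob a 1.02 :=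
    mul_le_mul_of_nonneg_left k3 (by linarith)
  have k6 : l * (1 - (3 - √3 * 1.04) ^ 3 / 24 + 0.00006) ≤ l * prob a 1.04 :=
    mul_le_mul_of_nonneg_left k2 hl0
  unfold Mf
  linarith

end Pool.Agent.Helper89.SP
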