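import Pool.Agent.Helper89.SP.Defs
import Pool.Agent.Helper76.Slab.AAH

/-!
Project SP, module SP-11: the values of the competitors f3, f4, f5.
-/

set_option autoImplicit false

open MeasureTheory Set Real Slab

namespace Pool.Agent.Helper89.SP

namespace Values

/-- truncated power -/
noncomputable def g (k : ℕ) (a s : ℝ) : ℝ := max (a - s) 0 ^ k

theorem g_zero {k : ℕ} (hk : k ≠ 0) {a s : ℝ} (h : a ≤ s) : g k a s = 0 := by
  unfold g; rw [max_eq_right (by linarith), zero_pow hk]

theorem g_pos {k : ℕ} {a s : ℝ} (h : s ≤ a) : g k a s = (a - s) ^ k := by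
  unfold g; rw [max_eq_left (by linarith)]

theorem g_shift (k : ℕ) (a c s : ℝ) : g k a (s + c) = g k (a - c) s := by
  unfold g; congr 2; ring

theorem g_shift' (k : ℕ) (a c s : ℝ) : g k a (s - c) = g k (a + c) s := by
  unfold g; congr 2; ring

theorem continuous_g (k : ℕ) (a : ℝ) : Continuous (g k a) := by
  unfold g; fun_prop

theorem hasDerivAt_g {k : ℕ} (hk : 1 ≤ k) (a s : ℝ) :
    HasDerivAt (g (k + 1) a) (-((k + 1) * g k a s)) s := by
  rcases lt_trichotomy s a with h | h | h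
  · have h1 : HasDerivAt (fun y : ℝ => (a - y) ^ (k + 1)) (((k + 1 : ℕ) : ℝ) * (a - s) ^ k * (-1)) s := by
      have h2 : HasDerivAt (fun y : ℝ => a - y) (-1) s := by
        simpa using (hasDerivAt_id s).const_sub a
      have := h2.pow (k + 1)
      simpa [Pi.pow_def] using this
    have h3 : -((k + 1 : ℝ) * g k a s) = ((k + 1 : ℕ) : ℝ) * (a - s) ^ k * (-1) := by
      rw [g_pos h.le]; push_cast; ring
    rw [h3]
    refine h1.congr_of_eventuallyEq ?_
    filter_upwards [gt_mem_nhds h] with y hy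
    exact g_pos hy.le
  · subst h
    have h0 : g k s s = 0 := g_zero (by omega) le_rfl
    rw [h0, mul_zero, neg_zero]
    rw [hasDerivAt_iff_isLittleO]
    have h1 : g (k + 1) s s = 0 := g_zero (by omega) le_rfl
    simp only [h1, sub_zero, smul_zero]
    have h2 : (fun x' => g (k + 1) s x') =O[nhds s] fun x' => ‖x' - s‖ ^ (k + 1) := by
      refine Asymptotics.IsBigO.of_bound 1 (Filter.Eventually.of_forall fun x => ?_)
      unfold g
      rw [norm_pow, norm_pow, norm_norm, Real.norm_eq_abs, Real.norm_eq_abs, one_mul]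
      refine pow_le_pow_left₀ (abs_nonneg _) ?_ _
      rw [abs_of_nonneg (le_max_right _ _)]
      refine max_le ?_ (abs_nonneg _)
      rw [abs_sub_comm]; exact le_abs_self _
    exact h2.trans_isLittleO (Asymptotics.isLittleO_pow_sub_sub s (m := k + 1) (by omega))
  · have h3 : -((k + 1 : ℝ) * g k a s) = 0 := by
      rw [g_zero (by omega) h.le]; ring
    rw [h3]
    refine (hasDerivAt_const s (0 : ℝ)).congr_of_eventuallyEq ?_
    filter_upwards [lt_mem_nhds h] with y hy
    exact g_zero (by omega) hy.le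

theorem A_of_deriv {c : ℝ} (hc : 0 < c) {F f : ℝ → ℝ} (hF : ∀ y, HasDerivAt F (f y) y)
    (hf : Continuous f) (s : ℝ) : A c f s = (F (s + c) - F (s - c)) / c := by
  rw [Slab.Deriv.A_eq hc.ne', intervalIntegral.integral_eq_sub_of_hasDerivAt (fun v _ => hF v)
    (hf.intervalIntegrable _ _)]
  field_simp

theorem A1 {c : ℝ} (hc : 0 < c) : A c H = fun s => (g 1 c s - g 1 (-c) s) / c := by
  funext s
  rw [Slab.AAHaux.A_H_pos hc]
  unfold g
  rw [pow_one, pow_one]
  have h1 : ∀ x : ℝ, max x 0 = (x + |x|) / 2 := by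
    intro x
    rcases le_or_gt 0 x with h | h
    · rw [max_eq_left h, abs_of_nonneg h]; ring
    · rw [max_eq_right h.le, abs_of_neg h]; ring
  rw [h1, h1]
  have h2 : |(-c : ℝ) - s| = |s + c| := by
    rw [← abs_neg]; congr 1; ring
  rw [h2, abs_sub_comm c s]
  field_simp
  ring

theorem A2 {c : ℝ} (hc : 0 < c) :
    A c (A c H) = fun s => (g 2 (2 * c) s - 2 * g 2 0 s + g 2 (-(2 * c)) s) / (2 * c ^ 2) := by
  funext s
  rw [A1 hc]
  have hF : ∀ y, HasDerivAt (fun y => -(g 2 c y - g 2 (-c) y) / (2 * c))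
      ((g 1 c y - g 1 (-c) y) / c) y := by
    intro y
    have h1 := ((hasDerivAt_g le_rfl c y).sub (hasDerivAt_g le_rfl (-c) y)).neg.div_const (2 * c)
    refine h1.congr_deriv ?_
    push_cast
    field_simp
    ring
  rw [A_of_deriv hc hF (by have := continuous_g 1 c; have := continuous_g 1 (-c); fun_prop)]
  simp only [g_shift, g_shift']
  rw [show c - c = 0 by ring, show -c - c = -(2 * c) by ring, show c + c = 2 * c by ring,
    show -c + c = 0 by ring]
  field_simp
  ring

theorem A3 {c : ℝ} (hc : 0 < c) :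
    A c (A c (A c H)) = fun s => (g 3 (3 * c) s - 3 * g 3 c s + 3 * g 3 (-c) s - g 3 (-(3 * c)) s) /
      (6 * c ^ 3) := by
  funext s
  rw [A2 hc]
  have hF : ∀ y, HasDerivAt (fun y => -(g 3 (2 * c) y - 2 * g 3 0 y + g 3 (-(2 * c)) y) / (6 * c ^ 2))
      ((g 2 (2 * c) y - 2 * g 2 0 y + g 2 (-(2 * c)) y) / (2 * c ^ 2)) y := by
    intro y
    have h1 := ((((hasDerivAt_g one_le_two (2 * c) y).sub
      ((hasDerivAt_g one_le_two 0 y).const_mul 2)).add
      (hasDerivAt_g one_le_two (-(2 * c)) y))).neg.div_const (6 * c ^ 2)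
    refine h1.congr_deriv ?_
    push_cast
    field_simp
    ring
  rw [A_of_deriv hc hF (by
    have := continuous_g 2 (2 * c); have := continuous_g 2 0; have := continuous_g 2 (-(2 * c))
    fun_prop)]
  simp only [g_shift, g_shift']
  rw [show 2 * c - c = c by ring, show 0 - c = -c by ring, show -(2 * c) - c = -(3 * c) by ring,
    show 2 * c + c = 3 * c by ring, show 0 + c = c by ring, show -(2 * c) + c = -c by ring]
  field_simp
  ring

theorem A4 {c : ℝ} (hc : 0 < c) :
    A c (A c (A c (A c H))) = fun s => (g 4 (4 * c) s - 4 * g 4 (2 * c) s + 6 * g 4 0 s -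
      4 * g 4 (-(2 * c)) s + g 4 (-(4 * c)) s) / (24 * c ^ 4) := by
  funext s
  rw [A3 hc]
  have hF : ∀ y, HasDerivAt (fun y => -(g 4 (3 * c) y - 3 * g 4 c y + 3 * g 4 (-c) y -
      g 4 (-(3 * c)) y) / (24 * c ^ 3))
      ((g 3 (3 * c) y - 3 * g 3 c y + 3 * g 3 (-c) y - g 3 (-(3 * c)) y) / (6 * c ^ 3)) y := by
    intro y
    have h3 : 1 ≤ 3 := by norm_num
    have h1 := ((((hasDerivAt_g h3 (3 * c) y).sub
      ((hasDerivAt_g h3 c y).const_mul 3)).add
      ((hasDerivAt_g h3 (-c) y).const_mul 3)).sub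
      (hasDerivAt_g h3 (-(3 * c)) y)).neg.div_const (24 * c ^ 3)
    refine h1.congr_deriv ?_
    push_cast
    field_simp
    ring
  rw [A_of_deriv hc hF (by
    have := continuous_g 3 (3 * c); have := continuous_g 3 c; have := continuous_g 3 (-c)
    have := continuous_g 3 (-(3 * c))
    fun_prop)]
  simp only [g_shift, g_shift']
  rw [show 3 * c - c = 2 * c by ring, show c - c = 0 by ring, show -c - c = -(2 * c) by ring,
    show -(3 * c) - c = -(4 * c) by ring, show 3 * c + c = 4 * c by ring,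
    show c + c = 2 * c by ring, show -c + c = 0 by ring, show -(3 * c) + c = -(2 * c) by ring]
  field_simp
  ring

theorem A5 {c : ℝ} (hc : 0 < c) :
    A c (A c (A c (A c (A c H)))) = fun s => (g 5 (5 * c) s - 5 * g 5 (3 * c) s + 10 * g 5 c s -
      10 * g 5 (-c) s + 5 * g 5 (-(3 * c)) s - g 5 (-(5 * c)) s) / (120 * c ^ 5) := by
  funext s
  rw [A4 hc]
  have hF : ∀ y, HasDerivAt (fun y => -(g 5 (4 * c) y - 4 * g 5 (2 * c) y + 6 * g 5 0 y -
      4 * g 5 (-(2 * c)) y + g 5 (-(4 * c)) y) / (120 * c ^ 4))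
      ((g 4 (4 * c) y - 4 * g 4 (2 * c) y + 6 * g 4 0 y -
      4 * g 4 (-(2 * c)) y + g 4 (-(4 * c)) y) / (24 * c ^ 4)) y := by
    intro y
    have h4 : 1 ≤ 4 := by norm_num
    have h1 := (((((hasDerivAt_g h4 (4 * c) y).sub
      ((hasDerivAt_g h4 (2 * c) y).const_mul 4)).add
      ((hasDerivAt_g h4 0 y).const_mul 6)).sub
      ((hasDerivAt_g h4 (-(2 * c)) y).const_mul 4)).add
      (hasDerivAt_g h4 (-(4 * c)) y)).neg.div_const (120 * c ^ 4)
    refine h1.congr_deriv ?_
    push_cast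
    field_simp
    ring
  rw [A_of_deriv hc hF (by
    have := continuous_g 4 (4 * c); have := continuous_g 4 (2 * c); have := continuous_g 4 0
    have := continuous_g 4 (-(2 * c)); have := continuous_g 4 (-(4 * c))
    fun_prop)]
  simp only [g_shift, g_shift']
  rw [show 4 * c - c = 3 * c by ring, show 2 * c - c = c by ring, show 0 - c = -c by ring,
    show -(2 * c) - c = -(3 * c) by ring,
    show -(4 * c) - c = -(5 * c) by ring, show 4 * c + c = 5 * c by ring,
    show 2 * c + c = 3 * c by ring, show 0 + c = c by ring, show -(2 * c) + c = -c by ring,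
    show -(4 * c) + c = -(3 * c) by ring]
  field_simp
  ring

theorem A_0H (s : ℝ) : A 0 H s = 2 * H s := Slab.Deriv.A_zero H s

theorem AL_zeros (k : ℕ) (s : ℝ) : AL (List.replicate k 0) H s = 2 ^ k * H s := by
  induction k generalizing s with
  | zero => simp [AL_nil]
  | succ k ih =>
    rw [List.replicate_succ, AL_cons, Slab.Deriv.A_zero, ih]
    ring

theorem A_const_mul (x b : ℝ) (φ : ℝ → ℝ) : A x (fun s => b * φ s) = fun s => b * A x φ s := by
  funext s
  unfold A
  rw [intervalIntegral.integral_const_mul]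

theorem AL_const_mul' (l : List ℝ) (b : ℝ) (φ : ℝ → ℝ) :
    AL l (fun s => b * φ s) = fun s => b * AL l φ s := by
  induction l with
  | nil => rfl
  | cons x l ih => rw [AL_cons, ih, A_const_mul, AL_cons]

theorem T_zeros (L : List ℝ) (k : ℕ) (t : ℝ) : T (L ++ List.replicate k 0) t = T L t := by
  unfold T
  rw [AL_append, show AL (List.replicate k 0) H = fun s => 2 ^ k * H s from
    funext fun s => AL_zeros k s, AL_const_mul', List.length_append, List.length_replicate, pow_add]
  have h : (2 : ℝ) ^ k ≠ 0 := by positivity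
  field_simp

end Values

open Values

theorem T_f3 {k : ℕ} {t : ℝ} (h0 : 1 / √3 ≤ t) (h1 : t ≤ √3) :
    T (List.replicate 3 (1 / √3) ++ List.replicate k 0) t = Mf t := by
  have h3 : (0 : ℝ) < √3 := by positivity
  have hs : √3 ^ 2 = (3 : ℝ) := Real.sq_sqrt (by norm_num)
  have hc : (0 : ℝ) < 1 / √3 := by positivity
  rw [T_zeros]
  unfold T Mf
  have e : AL (List.replicate 3 (1 / √3)) H = A (1 / √3) (A (1 / √3) (A (1 / √3) H)) := rfl
  rw [e, A3 hc]
  have h4 : 3 * (1 / √3) = √3 := by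
    field_simp; nlinarith
  simp only [List.length_replicate]
  rw [h4, g_pos h1, g_zero (by norm_num) h0, g_zero (by norm_num) (by linarith),
    g_zero (by norm_num) (by linarith)]
  have h6 : (3 - √3 * t) ^ 3 = √3 ^ 3 * (√3 - t) ^ 3 := by
    rw [← mul_pow]; congr 1; nlinarith
  have h7 : (0 : ℝ) < (1 / √3) ^ 3 := by positivity
  rw [h6]
  have h8 : (√3 - t) ^ 3 / (6 * (1 / √3) ^ 3) = (√3 ^ 3 * (√3 - t) ^ 3) / 6 := by
    field_simp
  simp only [mul_zero, sub_zero, add_zero]
  rw [h8]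
  ring

theorem T_f4 {k : ℕ} {t : ℝ} (h0 : 1 ≤ t) (h1 : t ≤ 2) :
    T (List.replicate 4 (1 / √4) ++ List.replicate k 0) t = T4 t := by
  have hs : √4 = (2 : ℝ) := by
    rw [show (4 : ℝ) = 2 ^ 2 by norm_num]; exact Real.sqrt_sq (by norm_num)
  rw [T_zeros, hs]
  unfold T T4
  have e : AL (List.replicate 4 (1 / 2 : ℝ)) H =
    A (1 / 2) (A (1 / 2) (A (1 / 2) (A (1 / 2) H))) := rfl
  rw [e, A4 (by norm_num)]
  simp only [List.length_replicate]
  rw [show (4 : ℝ) * (1 / 2) = 2 by norm_num, show (2 : ℝ) * (1 / 2) = 1 by norm_num,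
    g_pos h1, g_zero (by norm_num) h0, g_zero (by norm_num) (by linarith),
    g_zero (by norm_num) (by linarith), g_zero (by norm_num) (by linarith)]
  ring

theorem T_f5 {k : ℕ} {t : ℝ} (h0 : 1 ≤ t) (h1 : t ≤ √5) :
    T (List.replicate 5 (1 / √5) ++ List.replicate k 0) t = T5 t := by
  have h3 : (0 : ℝ) < √5 := by positivity
  have hs : √5 ^ 2 = (5 : ℝ) := Real.sq_sqrt (by norm_num)
  have hc : (0 : ℝ) < 1 / √5 := by positivity
  have h51 : (1 : ℝ) ≤ √5 := by
    rw [Real.one_le_sqrt]; norm_num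
  have h2 : 1 / √5 ≤ 1 := by
    rw [div_le_one h3]; exact h51
  rw [T_zeros]
  unfold T T5
  have e : AL (List.replicate 5 (1 / √5)) H =
    A (1 / √5) (A (1 / √5) (A (1 / √5) (A (1 / √5) (A (1 / √5) H)))) := rfl
  rw [e, A5 hc]
  have h4 : 5 * (1 / √5) = √5 := by
    field_simp; nlinarith
  simp only [List.length_replicate]
  rw [h4, g_pos h1, g_zero (a := 1 / √5) (by norm_num) (by linarith),
    g_zero (a := -(1 / √5)) (by norm_num) (by linarith),
    g_zero (a := -(3 * (1 / √5))) (by norm_num) (by linarith),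
    g_zero (a := -√5) (by norm_num) (by linarith)]
  have h6 : (5 - √5 * t) ^ 5 = √5 ^ 5 * (√5 - t) ^ 5 := by
    rw [← mul_pow]; congr 1; nlinarith
  have h7 : max (3 - √5 * t) 0 ^ 5 = √5 ^ 5 * g 5 (3 * (1 / √5)) t := by
    unfold g
    rw [← mul_pow]; congr 1
    rw [mul_max_of_nonneg _ _ h3.le, mul_zero]
    congr 1
    field_simp
  rw [h6, h7]
  have h8 : ∀ x : ℝ, x / (120 * (1 / √5) ^ 5) = (√5 ^ 5 * x) / 120 := by
    intro x; field_simp
  simp only [mul_zero, sub_zero, add_zero]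
  rw [h8]
  ring

end Pool.Agent.Helper89.SP
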