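import Pool.Agent.Helper48.SP.TnDef
import Pool.Agent.Helper91.SP.Values
import Pool.Agent.Helper91.SP.SmallCoords

/-!
Project SP, module SP-15c: crossing for `n = 4, 5`, and `T_n ≤ M` on `[1.02, 1.04]`.
-/

set_option autoImplicit false

open MeasureTheory Set Real Slab

namespace Pool.Agent.Helper89.SP

namespace Cross

theorem mono_aux {D D' : ℝ → ℝ} {a b : ℝ} (h : ∀ t, HasDerivAt D (D' t) t)
    (h0 : ∀ t, a ≤ t → t ≤ b → 0 ≤ D' t) {s t : ℝ} (hs : a ≤ s) (hst : s ≤ t) (ht : t ≤ b) :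
    D s ≤ D t := by
  have hm : MonotoneOn D (Icc a b) := by
    refine monotoneOn_of_deriv_nonneg (convex_Icc a b)
      (fun x _ => (h x).continuousAt.continuousWithinAt)
      (fun x _ => (h x).differentiableAt.differentiableWithinAt) ?_
    intro x hx
    rw [interior_Icc] at hx
    rw [(h x).deriv]
    exact h0 x hx.1.le hx.2.le
  exact hm ⟨hs, by linarith⟩ ⟨by linarith, ht⟩ hst

lemma sqrt5_b : 2.236067 < √5 ∧ √5 < 2.236068 := by
  constructor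
  · apply Real.lt_sqrt_of_sq_lt; norm_num
  · rw [Real.sqrt_lt' (by norm_num)]; norm_num

theorem hasDerivAt_Mf (t : ℝ) : HasDerivAt Mf (-(√3 / 8 * (3 - √3 * t) ^ 2)) t := by
  have h1 : HasDerivAt (fun t : ℝ => 3 - √3 * t) (-√3) t := by
    have := ((hasDerivAt_id t).const_mul √3).const_sub 3
    simpa using this
  have h2 := (h1.pow 3).div_const 24
  refine h2.congr_deriv ?_
  push_cast
  ring

theorem hasDerivAt_T4 (t : ℝ) : HasDerivAt T4 (-((2 - t) ^ 3 / 3)) t := by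
  have h1 : HasDerivAt (fun t : ℝ => 2 - t) (-1) t := by
    simpa using (hasDerivAt_id t).const_sub 2
  have h2 := (h1.pow 4).div_const 12
  refine h2.congr_deriv ?_
  push_cast
  ring

/-- the polynomial value of `T5` -/
noncomputable def T5p (t : ℝ) : ℝ := ((5 - √5 * t) ^ 5 - 5 * (3 - √5 * t) ^ 5) / 1920

theorem T5_eq {t : ℝ} (ht : t ≤ 1.3) : T5 t = T5p t := by
  obtain ⟨ha, hb⟩ := sqrt5_b
  unfold T5 T5p
  rw [max_eq_left]
  nlinarith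

theorem hasDerivAt_T5p (t : ℝ) :
    HasDerivAt T5p (-(√5 * 5 * ((5 - √5 * t) ^ 4 - 5 * (3 - √5 * t) ^ 4) / 1920)) t := by
  have h1 : ∀ c : ℝ, HasDerivAt (fun t : ℝ => c - √5 * t) (-√5) t := by
    intro c
    have := ((hasDerivAt_id t).const_mul √5).const_sub c
    simpa using this
  have h2 := (((h1 5).pow 5).sub (((h1 3).pow 5).const_mul 5)).div_const 1920
  refine h2.congr_deriv ?_
  push_cast
  ring

theorem M_tangent (t : ℝ) (h1 : t ≤ 1.1) (h0 : 1.02 ≤ t) :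
    0.2933 - 0.8731 * (t - 1.06) - 0.0001 ≤ √3 / 8 * (3 - √3 * t) ^ 2 := by
  obtain ⟨h3a, h3b⟩ := FA.sqrt3_b
  have h33 : √3 ^ 2 = 3 := Real.sq_sqrt (by norm_num)
  have h2 : 2 * 1.164 * (3 - √3 * t) - 1.164 ^ 2 ≤ (3 - √3 * t) ^ 2 := by
    nlinarith [sq_nonneg (3 - √3 * t - 1.164)]
  have h3 : √3 / 8 * (2 * 1.164 * (3 - √3 * t) - 1.164 ^ 2) ≤ √3 / 8 * (3 - √3 * t) ^ 2 :=
    mul_le_mul_of_nonneg_left h2 (by positivity)
  refine le_trans ?_ h3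
  have h4 : √3 / 8 * (2 * 1.164 * (3 - √3 * t) - 1.164 ^ 2) =
    √3 / 8 * (2 * 1.164 * 3 - 1.164 ^ 2) - 2 * 1.164 * 3 / 8 * t := by
    have : √3 / 8 * (2 * 1.164 * (3 - √3 * t) - 1.164 ^ 2) =
      √3 / 8 * (2 * 1.164 * 3 - 1.164 ^ 2) - 2 * 1.164 * √3 ^ 2 / 8 * t := by ring
    rw [this, h33]
  rw [h4]
  linarith

theorem four_le (t : ℝ) (h0 : 1.02 ≤ t) (h1 : t ≤ 1.1) :
    (2 - t) ^ 3 / 3 ≤ √3 / 8 * (3 - √3 * t) ^ 2 := by
  refine le_trans ?_ (M_tangent t h1 h0)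
  have h2 : (2 - t) ^ 3 ≤ 0.729 + 2.6525 * (1.1 - t) := by
    have h3 : 0 ≤ (1.1 - t) * (t - 1.02) := mul_nonneg (by linarith) (by linarith)
    nlinarith [mul_nonneg h3 (by linarith : (0:ℝ) ≤ 2 - t)]
  linarith

theorem five_le (t : ℝ) (h0 : 1.02 ≤ t) (h1 : t ≤ 1.1) :
    √5 * 5 * ((5 - √5 * t) ^ 4 - 5 * (3 - √5 * t) ^ 4) / 1920 ≤ √3 / 8 * (3 - √3 * t) ^ 2 := by
  refine le_trans ?_ (M_tangent t h1 h0)
  obtain ⟨ha, hb⟩ := sqrt5_b
  obtain ⟨y, hy⟩ : ∃ y, y = 5 - √5 * t := ⟨_, rfl⟩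
  have hy3 : 3 - √5 * t = y - 2 := by rw [hy]; ring
  rw [hy3, ← hy]
  have y0 : 2.54 ≤ y := by rw [hy]; nlinarith
  have y1 : y ≤ 2.72 := by rw [hy]; nlinarith
  have h2 : y ^ 4 - 5 * (y - 2) ^ 4 ≤ 41.198 + 67.749 * (y - 2.54) := by
    have h3 : 0 ≤ (2.72 - y) * (y - 2.54) := mul_nonneg (by linarith) (by linarith)
    nlinarith [mul_nonneg h3 (by linarith : (0:ℝ) ≤ y - 2), mul_nonneg h3 (by linarith : (0:ℝ) ≤ 2.72 - y), mul_nonneg h3 (mul_nonneg (by linarith : (0:ℝ) ≤ y - 2) (by linarith : (0:ℝ) ≤ 3 - y))]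
  have h4 : √5 * 5 * (y ^ 4 - 5 * (y - 2) ^ 4) / 1920 ≤
      2.236068 * 5 * (41.198 + 67.749 * (y - 2.54)) / 1920 := by
    have h5 : 0 ≤ 41.198 + 67.749 * (y - 2.54) := by linarith
    have h6 : √5 * (y ^ 4 - 5 * (y - 2) ^ 4) ≤ 2.236068 * (41.198 + 67.749 * (y - 2.54)) :=
      le_trans (mul_le_mul_of_nonneg_left h2 (by positivity))
        (mul_le_mul_of_nonneg_right hb.le h5)
    linarith
  refine le_trans h4 ?_
  have h7 : y ≤ 5 - 2.236067 * t := by rw [hy]; nlinarith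
  linarith

/-- the difference for `n = 4` is increasing -/
theorem mono4 {s t : ℝ} (hs : 1.02 ≤ s) (hst : s ≤ t) (ht : t ≤ 1.1) :
    T4 s - Mf s ≤ T4 t - Mf t := by
  refine mono_aux (D := fun t => T4 t - Mf t)
    (D' := fun t => -((2 - t) ^ 3 / 3) - (-(√3 / 8 * (3 - √3 * t) ^ 2)))
    (fun t => (hasDerivAt_T4 t).sub (hasDerivAt_Mf t)) ?_ hs hst ht
  intro t h0 h1
  have := four_le t h0 h1
  show 0 ≤ -((2 - t) ^ 3 / 3) - (-(√3 / 8 * (3 - √3 * t) ^ 2))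
  linarith

/-- the difference for `n = 5` is increasing -/
theorem mono5 {s t : ℝ} (hs : 1.02 ≤ s) (hst : s ≤ t) (ht : t ≤ 1.1) :
    T5 s - Mf s ≤ T5 t - Mf t := by
  rw [T5_eq (by linarith), T5_eq (by linarith)]
  refine mono_aux (D := fun t => T5p t - Mf t)
    (D' := fun t => -(√5 * 5 * ((5 - √5 * t) ^ 4 - 5 * (3 - √5 * t) ^ 4) / 1920) -
      (-(√3 / 8 * (3 - √3 * t) ^ 2)))
    (fun t => (hasDerivAt_T5p t).sub (hasDerivAt_Mf t)) ?_ hs hst ht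
  intro t h0 h1
  have := five_le t h0 h1
  show 0 ≤ -(√5 * 5 * ((5 - √5 * t) ^ 4 - 5 * (3 - √5 * t) ^ 4) / 1920) -
      (-(√3 / 8 * (3 - √3 * t) ^ 2))
  linarith

theorem at104_4 : T4 1.04 < Mf 1.04 := by
  obtain ⟨h3a, h3b⟩ := FA.sqrt3_b
  unfold T4 Mf
  have h1 : 1.198 ≤ 3 - √3 * 1.04 := by linarith
  have h2 : (1.198 : ℝ) ^ 3 ≤ (3 - √3 * 1.04) ^ 3 := pow_le_pow_left₀ (by norm_num) h1 3
  norm_num at h2 ⊢
  linarith

theorem at104_5 : T5 1.04 < Mf 1.04 := by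
  obtain ⟨h3a, h3b⟩ := FA.sqrt3_b
  obtain ⟨ha, hb⟩ := sqrt5_b
  rw [T5_eq (by norm_num)]
  unfold T5p Mf
  have h1 : 1.1986 ≤ 3 - √3 * 1.04 := by linarith
  have h2 : (1.1986 : ℝ) ^ 3 ≤ (3 - √3 * 1.04) ^ 3 := pow_le_pow_left₀ (by norm_num) h1 3
  have h3 : 5 - √5 * 1.04 ≤ 2.6745 := by linarith
  have h30 : 0 ≤ 5 - √5 * 1.04 := by linarith
  have h4 : (5 - √5 * 1.04) ^ 5 ≤ 2.6745 ^ 5 := pow_le_pow_left₀ h30 h3 5
  have h5 : 0.6744 ≤ 3 - √5 * 1.04 := by linarith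
  have h6 : (0.6744 : ℝ) ^ 5 ≤ (3 - √5 * 1.04) ^ 5 := pow_le_pow_left₀ (by norm_num) h5 5
  norm_num at h2 h4 h6 ⊢
  linarith

theorem Tn4 {t : ℝ} (h0 : 1 ≤ t) (h1 : t ≤ 2) : Tn 4 t = T4 t := by
  have := T_f4 (k := 0) h0 h1
  rw [List.replicate_zero, List.append_nil] at this
  unfold Tn
  push_cast
  exact this

theorem Tn5 {t : ℝ} (h0 : 1 ≤ t) (h1 : t ≤ √5) : Tn 5 t = T5 t := by
  have := T_f5 (k := 0) h0 h1
  rw [List.replicate_zero, List.append_nil] at this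
  unfold Tn
  push_cast
  exact this

end Cross

open Cross

theorem crossing_45 {n : ℕ} (hn : n = 4 ∨ n = 5) {s t : ℝ} (hs : 1.04 ≤ s) (hst : s ≤ t)
    (ht : t ≤ 1.1) (h : Mf s ≤ Tn n s) : Mf t ≤ Tn n t := by
  obtain ⟨ha, hb⟩ := sqrt5_b
  rcases hn with rfl | rfl
  · rw [Tn4 (by linarith) (by linarith)] at h ⊢
    have := mono4 (by linarith) hst ht
    linarith
  · rw [Tn5 (by linarith) (by linarith)] at h ⊢
    have := mono5 (by linarith) hst ht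
    linarith

theorem sq_replicate {n : ℕ} (hn : 1 ≤ n) : sq (List.replicate n (1 / √(n : ℝ))) = 1 := by
  unfold sq
  rw [List.map_replicate, List.sum_replicate, nsmul_eq_mul, div_pow, one_pow,
    Real.sq_sqrt (Nat.cast_nonneg n)]
  have : (n : ℝ) ≠ 0 := by positivity
  field_simp

theorem Tn_le {n : ℕ} (hn : 4 ≤ n) {t : ℝ} (ht : 1.02 ≤ t) (ht2 : t ≤ 1.04) : Tn n t ≤ Mf t := by
  obtain ⟨ha, hb⟩ := sqrt5_b
  rcases eq_or_lt_of_le hn with rfl | hn4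
  · rw [Tn4 (by linarith) (by linarith)]
    have h1 := mono4 ht ht2 (by norm_num)
    have h2 := at104_4
    linarith
  rcases eq_or_lt_of_le (show 5 ≤ n by omega) with rfl | hn5
  · rw [Tn5 (by linarith) (by linarith)]
    have h1 := mono5 ht ht2 (by norm_num)
    have h2 := at104_5
    linarith
  have hn6 : 6 ≤ n := by omega
  have h6 : (6 : ℝ) ≤ n := by exact_mod_cast hn6
  unfold Tn
  refine small_coords ?_ (sq_replicate (by omega)) ?_ ht ht2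
  · intro x hx
    rw [List.eq_of_mem_replicate hx]
    positivity
  · intro x hx
    rw [List.eq_of_mem_replicate hx, div_le_iff₀ (by positivity)]
    have h7 : 2.44 ≤ √(n : ℝ) := by
      apply Real.le_sqrt_of_sq_le
      norm_num
      linarith
    linarith

end Pool.Agent.Helper89.SP
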