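import Pool.Agent.Helper84.SP.Tails
import Pool.Agent.Helper94.SP.LogConc
import Pool.Agent.Helper91.SP.Cross45
import Pool.Agent.Helper23.SP.NodesX2

/-!
Project SP, module SP-15d: the crossing lemma.
-/

set_option autoImplicit false

open MeasureTheory Set Real Slab

namespace Pool.Agent.Helper89.SP

namespace Cross

theorem AL_pos {c : ℝ} (hc : 0 < c) : ∀ (m : ℕ) (s : ℝ), s < m * c →
    0 < AL (List.replicate m c) H s := by
  intro m
  induction m with
  | zero =>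
    intro s hs
    have h : s < 0 := by simpa using hs
    rw [List.replicate_zero, AL_nil]
    unfold H
    rw [if_pos h]
    exact one_pos
  | succ m ih =>
    intro s hs
    push_cast at hs
    rw [List.replicate_succ, AL_cons]
    obtain ⟨ia, ib⟩ := p5_props (List.replicate m c)
    obtain ⟨φ, hφ⟩ : ∃ φ, φ = AL (List.replicate m c) H := ⟨_, rfl⟩
    rw [← hφ] at ia ib ih ⊢
    obtain ⟨d, hd⟩ : ∃ d, d = ((m + 1) * c - s) / 2 := ⟨_, rfl⟩
    have hd0 : 0 < d := by rw [hd]; linarith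
    obtain ⟨w, hw⟩ : ∃ w, w = max (-1) (1 - d / c) := ⟨_, rfl⟩
    have hw1 : w < 1 := by
      rw [hw]
      exact max_lt (by norm_num) (by have := div_pos hd0 hc; linarith)
    have hw0 : -1 ≤ w := by rw [hw]; exact le_max_left _ _
    have hw2 : 1 - d / c ≤ w := by rw [hw]; exact le_max_right _ _
    have hw3 : c - d ≤ c * w := by
      have := mul_le_mul_of_nonneg_left hw2 hc.le
      have h2 : c * (1 - d / c) = c - d := by field_simp
      linarith
    have hpos : 0 < φ (s - c * w) := by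
      apply ih
      have : s - c + d < m * c := by rw [hd]; linarith
      linarith
    have hint := p5_int ia ib c s
    have i1 : IntervalIntegrable (fun u => φ (s - c * u)) volume (-1) w :=
      hint.mono_set (by
        rw [uIcc_of_le hw0, uIcc_of_le (by norm_num : (-1:ℝ) ≤ 1)]
        exact Icc_subset_Icc le_rfl hw1.le)
    have i2 : IntervalIntegrable (fun u => φ (s - c * u)) volume w 1 :=
      hint.mono_set (by
        rw [uIcc_of_le hw1.le, uIcc_of_le (by norm_num : (-1:ℝ) ≤ 1)]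
        exact Icc_subset_Icc hw0 le_rfl)
    unfold A
    rw [← intervalIntegral.integral_add_adjacent_intervals i1 i2]
    have h1 : 0 ≤ ∫ u in (-1 : ℝ)..w, φ (s - c * u) :=
      intervalIntegral.integral_nonneg hw0 fun u _ => (ib _).1
    have h2 : ∫ u in w..1, φ (s - c * w) ≤ ∫ u in w..1, φ (s - c * u) := by
      refine intervalIntegral.integral_mono_on hw1.le intervalIntegrable_const i2 fun u hu => ia ?_
      have := mul_le_mul_of_nonneg_left hu.1 hc.le
      linarith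
    rw [intervalIntegral.integral_const, smul_eq_mul] at h2
    have h3 : 0 < (1 - w) * φ (s - c * w) := mul_pos (by linarith) hpos
    linarith

theorem Tn_pos {n : ℕ} (hn : 6 ≤ n) {t : ℝ} (ht : t ≤ 1.2) : 0 < Tn n t := by
  unfold Tn T
  have h6 : (6 : ℝ) ≤ n := by exact_mod_cast hn
  have h7 : 2 ≤ √(n : ℝ) := by
    apply Real.le_sqrt_of_sq_le
    linarith
  have h8 : 0 < 1 / √(n : ℝ) := by positivity
  have h9 : (n : ℝ) * (1 / √(n : ℝ)) = √(n : ℝ) := by
    have := Real.mul_self_sqrt (Nat.cast_nonneg (α := ℝ) n)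
    field_simp
    nlinarith
  have := AL_pos h8 n t (by rw [h9]; linarith)
  positivity

theorem Tn_anti {n : ℕ} {s t : ℝ} (h : s ≤ t) : Tn n t ≤ Tn n s := by
  unfold Tn T
  have := (p5_props (List.replicate n (1 / √(n : ℝ)))).1 h
  have h2 : (0 : ℝ) < 2 ^ (List.replicate n (1 / √(n : ℝ))).length := by positivity
  exact div_le_div_of_nonneg_right (by linarith) h2.le

theorem logT {n : ℕ} (hn : 6 ≤ n) {x y k : ℝ} (hx : 0 < x) (hxy : x < y) (hy : y ≤ 1.2)
    (hk0 : 0 < k) (hk1 : k < 1) :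
    (1 - k) * log (Tn n x) + k * log (Tn n y) ≤ log (Tn n ((1 - k) * x + k * y)) := by
  have h6 : (6 : ℝ) ≤ n := by exact_mod_cast hn
  have h := T_logconcave (List.replicate n (1 / √(n : ℝ)))
    ⟨1 / √(n : ℝ), List.mem_replicate.2 ⟨by omega, rfl⟩, by positivity⟩ hx hxy hk0 hk1
  have hx0 : 0 < Tn n x := Tn_pos hn (by linarith)
  have hy0 : 0 < Tn n y := Tn_pos hn hy
  have h2 : Tn n x ^ (1 - k) * Tn n y ^ k ≤ Tn n ((1 - k) * x + k * y) := h
  have h3 := Real.log_le_log (by positivity) h2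
  rw [Real.log_mul (by positivity) (by positivity), Real.log_rpow hx0, Real.log_rpow hy0] at h3
  exact h3

/-- three points -/
theorem logT3 {n : ℕ} (hn : 6 ≤ n) {x m y : ℝ} (hx : 0 < x) (hxm : x ≤ m) (hmy : m < y)
    (hy : y ≤ 1.2) :
    (y - m) * log (Tn n x) + (m - x) * log (Tn n y) ≤ (y - x) * log (Tn n m) := by
  rcases hxm.eq_or_lt with rfl | hxm
  · linarith
  have hd : 0 < y - x := by linarith
  have h := logT hn hx (hxm.trans hmy) hy (k := (m - x) / (y - x)) (div_pos (by linarith) hd)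
    ((div_lt_one hd).2 (by linarith))
  have e1 : 1 - (m - x) / (y - x) = (y - m) / (y - x) := by field_simp; ring
  have e2 : (y - m) / (y - x) * x + (m - x) / (y - x) * y = m := by field_simp; ring
  rw [e1, e2] at h
  have h2 := mul_le_mul_of_nonneg_left h hd.le
  have e3 : (y - x) * ((y - m) / (y - x) * log (Tn n x) + (m - x) / (y - x) * log (Tn n y)) =
      (y - m) * log (Tn n x) + (m - x) * log (Tn n y) := by field_simp
  linarith

theorem M_drop {a s t : ℝ} (ha : a ≤ s) (hst : s ≤ t) (ht : t ≤ 1.2) :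
    Mf t ≤ Mf s * exp (-(3 * (t - s) / (√3 - a))) := by
  obtain ⟨h3a, h3b⟩ := FA.sqrt3_b
  have h33 : √3 * √3 = 3 := Real.mul_self_sqrt (by norm_num)
  have hda : 0 < √3 - a := by linarith
  have hds : 0 < √3 - s := by linarith
  obtain ⟨w, hw⟩ : ∃ w, w = (t - s) / (√3 - a) := ⟨_, rfl⟩
  have hw0 : 0 ≤ w := by rw [hw]; apply div_nonneg <;> linarith
  have h1 : 1 - w ≤ exp (-w) := by have := add_one_le_exp (-w); linarith
  have h2 : (√3 - a) * w = t - s := by rw [hw]; field_simp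
  have h3 : √3 - t ≤ (√3 - s) * (1 - w) := by nlinarith
  have h4 : √3 - t ≤ (√3 - s) * exp (-w) := h3.trans (mul_le_mul_of_nonneg_left h1 hds.le)
  have h5 : 3 - √3 * t ≤ (3 - √3 * s) * exp (-w) := by
    have e1 : 3 - √3 * t = √3 * (√3 - t) := by rw [mul_sub, h33]
    have e2 : 3 - √3 * s = √3 * (√3 - s) := by rw [mul_sub, h33]
    rw [e1, e2, mul_assoc]
    exact mul_le_mul_of_nonneg_left h4 (by positivity)
  have h6 : 0 ≤ 3 - √3 * t := by nlinarith
  have h7 := pow_le_pow_left₀ h6 h5 3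
  have h8 : exp (-(3 * (t - s) / (√3 - a))) = exp (-w) ^ 3 := by
    rw [← exp_nat_mul]; congr 1; rw [hw]; push_cast; ring
  rw [h8]
  unfold Mf
  rw [mul_pow] at h7
  linarith

theorem cell {n : ℕ} (hn : 6 ≤ n) {a b c κ : ℝ} (ha0 : 1.04 ≤ a) (ha1 : a ≤ 1.08)
    (hb : b = a + 0.02) (hc : c = b + 0.05) (hκ : 0 < κ)
    (hT : Tn n b ≤ κ * Tn n c) (hκe : κ ≤ exp (0.15 / (√3 - a)))
    {s t : ℝ} (hs : a ≤ s) (hst : s ≤ t) (ht : t ≤ b) (h : Mf s ≤ Tn n s) : Mf t ≤ Tn n t := by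
  obtain ⟨h3a, h3b⟩ := FA.sqrt3_b
  have hda : 0 < √3 - a := by linarith
  have q1 := logT3 hn (x := s) (m := t) (y := c) (by linarith) hst (by linarith) (by linarith)
  have q2 := logT3 hn (x := t) (m := b) (y := c) (by linarith) ht (by linarith) (by linarith)
  have hTb : 0 < Tn n b := Tn_pos hn (by linarith)
  have hTc : 0 < Tn n c := Tn_pos hn (by linarith)
  have hTs : 0 < Tn n s := Tn_pos hn (by linarith)
  have hTt : 0 < Tn n t := Tn_pos hn (by linarith)
  have q3 : log (Tn n b) ≤ log κ + log (Tn n c) := by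
    rw [← Real.log_mul hκ.ne' hTc.ne']
    exact Real.log_le_log hTb hT
  have q4 : log κ ≤ 0.15 / (√3 - a) := by
    rw [Real.log_le_iff_le_exp hκ]; exact hκe
  obtain ⟨gs, hgs⟩ : ∃ g, g = log (Tn n s) := ⟨_, rfl⟩
  obtain ⟨gt, hgt⟩ : ∃ g, g = log (Tn n t) := ⟨_, rfl⟩
  obtain ⟨gb, hgb⟩ : ∃ g, g = log (Tn n b) := ⟨_, rfl⟩
  obtain ⟨gc, hgc⟩ : ∃ g, g = log (Tn n c) := ⟨_, rfl⟩
  rw [← hgs, ← hgt, ← hgc] at q1
  rw [← hgt, ← hgb, ← hgc] at q2
  rw [← hgb, ← hgc] at q3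
  have hct : 0 < c - t := by linarith
  have q5 : (t - s) * (gc - gb) ≤ (c - b) * (gt - gs) := by
    have r1 : (t - s) * (gc - gt) ≤ (c - t) * (gt - gs) := by nlinarith
    have r2 : (c - t) * (gc - gb) ≤ (c - b) * (gc - gt) := by nlinarith
    have r3 : (c - b) * ((t - s) * (gc - gt)) ≤ (c - b) * ((c - t) * (gt - gs)) :=
      mul_le_mul_of_nonneg_left r1 (by linarith)
    have r4 : (t - s) * ((c - t) * (gc - gb)) ≤ (t - s) * ((c - b) * (gc - gt)) :=
      mul_le_mul_of_nonneg_left r2 (by linarith)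
    have r5 : (c - t) * ((t - s) * (gc - gb)) ≤ (c - t) * ((c - b) * (gt - gs)) := by
      nlinarith
    exact le_of_mul_le_mul_left r5 hct
  have q6 : c - b = 0.05 := by linarith
  rw [q6] at q5
  have q7 : -(3 * (t - s) / (√3 - a)) ≤ gt - gs := by
    have r1 : gb - gc ≤ 0.15 / (√3 - a) := by linarith
    have r2 : (t - s) * (gb - gc) ≤ (t - s) * (0.15 / (√3 - a)) :=
      mul_le_mul_of_nonneg_left r1 (by linarith)
    have r3 : 3 * (t - s) / (√3 - a) = 20 * ((t - s) * (0.15 / (√3 - a))) := by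
      field_simp; ring
    rw [r3]
    nlinarith
  have h1 := M_drop hs hst (by linarith : t ≤ 1.2)
  refine h1.trans ?_
  calc Mf s * exp (-(3 * (t - s) / (√3 - a))) ≤ Tn n s * exp (-(3 * (t - s) / (√3 - a))) :=
        mul_le_mul_of_nonneg_right h (exp_pos _).le
    _ ≤ Tn n s * exp (gt - gs) :=
        mul_le_mul_of_nonneg_left (exp_le_exp.2 q7) hTs.le
    _ = Tn n t := by
        rw [exp_sub, hgt, hgs, exp_log hTs, exp_log hTt]
        field_simp

theorem exp_lower {x : ℝ} (hx : 0 ≤ x) : 1 + x + x ^ 2 / 2 + x ^ 3 / 6 + x ^ 4 / 24 ≤ exp x := by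
  have h := Real.sum_le_exp_of_nonneg hx 5
  simp [Finset.sum_range_succ, Nat.factorial] at h
  linarith

theorem kappa1 : (1.242 : ℝ) ≤ exp (0.15 / (√3 - 1.04)) := by
  obtain ⟨h3a, h3b⟩ := FA.sqrt3_b
  have h1 : 0.216746 ≤ 0.15 / (√3 - 1.04) := by
    rw [le_div_iff₀ (by linarith)]; linarith
  refine le_trans ?_ (exp_le_exp.2 h1)
  refine le_trans ?_ (exp_lower (by norm_num))
  norm_num

theorem kappa2 : (1.25 : ℝ) ≤ exp (0.15 / (√3 - 1.06)) := by
  obtain ⟨h3a, h3b⟩ := FA.sqrt3_b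
  have h1 : 0.223197 ≤ 0.15 / (√3 - 1.06) := by
    rw [le_div_iff₀ (by linarith)]; linarith
  refine le_trans ?_ (exp_le_exp.2 h1)
  refine le_trans ?_ (exp_lower (by norm_num))
  norm_num

theorem kappa3 : (1.2586 : ℝ) ≤ exp (0.15 / (√3 - 1.08)) := by
  obtain ⟨h3a, h3b⟩ := FA.sqrt3_b
  have h1 : 0.230042 ≤ 0.15 / (√3 - 1.08) := by
    rw [le_div_iff₀ (by linarith)]; linarith
  refine le_trans ?_ (exp_le_exp.2 h1)
  refine le_trans ?_ (exp_lower (by norm_num))
  norm_num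

end Cross

open Cross

theorem crossing {n : ℕ} (hn : 4 ≤ n) {s t : ℝ} (hs : 1.04 ≤ s) (hst : s ≤ t) (ht : t ≤ 1.1)
    (h : Mf s ≤ Tn n s) : Mf t ≤ Tn n t := by
  by_cases h45 : n = 4 ∨ n = 5
  · exact crossing_45 h45 hs hst ht h
  have hn6 : 6 ≤ n := by omega
  obtain ⟨x1, x2, x3⟩ := nodes_X2 hn6
  have c1 : ∀ {s t : ℝ}, 1.04 ≤ s → s ≤ t → t ≤ 1.06 → Mf s ≤ Tn n s → Mf t ≤ Tn n t :=
    fun hs hst ht h => cell hn6 (a := 1.04) (b := 1.06) (c := 1.11) (by norm_num) (by norm_num)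
      (by norm_num) (by norm_num) (by norm_num) x1 kappa1 hs hst ht h
  have c2 : ∀ {s t : ℝ}, 1.06 ≤ s → s ≤ t → t ≤ 1.08 → Mf s ≤ Tn n s → Mf t ≤ Tn n t :=
    fun hs hst ht h => cell hn6 (a := 1.06) (b := 1.08) (c := 1.13) (by norm_num) (by norm_num)
      (by norm_num) (by norm_num) (by norm_num) x2 kappa2 hs hst ht h
  have c3 : ∀ {s t : ℝ}, 1.08 ≤ s → s ≤ t → t ≤ 1.1 → Mf s ≤ Tn n s → Mf t ≤ Tn n t :=
    fun hs hst ht h => cell hn6 (a := 1.08) (b := 1.1) (c := 1.15) (by norm_num) (by norm_num)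
      (by norm_num) (by norm_num) (by norm_num) x3 kappa3 hs hst ht h
  -- from `s ≥ 1.08`
  have d3 : ∀ {s : ℝ}, 1.08 ≤ s → s ≤ t → Mf s ≤ Tn n s → Mf t ≤ Tn n t :=
    fun hs hst h => c3 hs hst ht h
  have d2 : ∀ {s : ℝ}, 1.06 ≤ s → s ≤ t → Mf s ≤ Tn n s → Mf t ≤ Tn n t := by
    intro s hs hst h
    rcases le_total 1.08 s with h1 | h1
    · exact d3 h1 hst h
    · rcases le_total t 1.08 with h2 | h2
      · exact c2 hs hst h2 h
      · exact d3 le_rfl h2 (c2 hs h1 le_rfl h)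
  rcases le_total 1.06 s with h1 | h1
  · exact d2 h1 hst h
  · rcases le_total t 1.06 with h2 | h2
    · exact c1 hs hst h2 h
    · exact d2 le_rfl h2 (c1 hs h1 le_rfl h)

end Pool.Agent.Helper89.SP
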